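import Mathlib

/-!
# Greedy lattice paths in dimension one with heavy negative tails

For `d = 1` there are exactly two self-avoiding paths of length `n` from the origin, so
`M_n` is the maximum of two independent sums of `n` i.i.d. variables.  Under (A+) the
quantity `M_n / n` converges in `L¹` to a finite constant if and only if the negative part
of the weights is integrable; otherwise `M_n / n → -∞` almost surely.  Since (A-) allows a
nonintegrable negative part when `d = 1`, this gives weights satisfying (A+) and (A-)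
without any finite `L¹` limit.
-/

set_option autoImplicit false

namespace Pool.Agent.Results.MP_18bc13_pr.DimensionOne

open MeasureTheory ProbabilityTheory Filter Topology

/-- a self-avoiding nearest neighbour path of length `n` from the origin of `ℤ^d` -/
structure IsPath {d n : ℕ} (γ : Fin (n + 1) → (Fin d → ℤ)) : Prop where
  start : γ 0 = 0
  step : ∀ i : Fin n, ∑ j, |γ i.succ j - γ i.castSucc j| = 1
  inj : Function.Injective γ

/-- the greedy lattice path weight `M_n` of the weight configuration `x` -/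
noncomputable def greedy (d n : ℕ) (x : (Fin d → ℤ) → ℝ) : ℝ :=
  sSup {s | ∃ γ : Fin (n + 1) → (Fin d → ℤ), IsPath γ ∧ s = ∑ i : Fin n, x (γ i.succ)}

/-- condition (A+) for the law `μ` of the weights -/
def PlusCond (d : ℕ) (μ : Measure ℝ) : Prop :=
  ∃ α : ℝ, 0 < α ∧
    ∫⁻ x, ENNReal.ofReal ((max x 0) ^ d * (max (Real.log (max x 0)) 0) ^ ((d : ℝ) + α)) ∂μ < ⊤

/-- condition (A-) for the law `μ` of the weights -/
def MinusCond (d : ℕ) (μ : Measure ℝ) : Prop :=
  ∫⁻ t in Set.Ioi (0 : ℝ), (μ (Set.Iio (-t))) ^ (2 * d) < ⊤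

/-- the law of an i.i.d. family of weights with law `μ` indexed by `ℤ^d` -/
noncomputable def weights (d : ℕ) (μ : Measure ℝ) : Measure ((Fin d → ℤ) → ℝ) :=
  Measure.infinitePi (fun _ : Fin d → ℤ => μ)

/-- `E |M_n / n - M| → 0` -/
def L1Limit (d : ℕ) (μ : Measure ℝ) (M : ℝ) : Prop :=
  Tendsto (fun n : ℕ => ∫⁻ x, ENNReal.ofReal |greedy d n x / n - M| ∂(weights d μ)) atTop (𝓝 0)

/-! ### Paths in dimension one -/

/-- the ray in direction `s` -/
def ray (s : ℤ) (n : ℕ) : Fin (n + 1) → (Fin 1 → ℤ) := fun i _ => s * (i : ℕ)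

lemma ray_isPath (s : ℤ) (hs : |s| = 1) (n : ℕ) : IsPath (ray s n) := by
  have hs0 : s ≠ 0 := by rintro rfl; simp at hs
  refine ⟨?_, ?_, ?_⟩
  · funext j; simp [ray]
  · intro i
    simp only [ray, Fin.val_succ, Fin.val_castSucc, Finset.univ_unique, Finset.sum_singleton]
    have : s * ((i : ℕ) + 1 : ℕ) - s * ((i : ℕ) : ℤ) = s := by push_cast; ring
    rw [this, hs]
  · intro i j hij
    have := congrFun hij 0
    simp only [ray] at this
    have h2 := mul_left_cancel₀ hs0 this
    exact Fin.ext (by exact_mod_cast h2)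

lemma path_eq_ray {n : ℕ} (γ : Fin (n + 1) → (Fin 1 → ℤ)) (h : IsPath γ) :
    γ = ray 1 n ∨ γ = ray (-1) n := by
  -- work with the one coordinate
  set g : ℕ → ℤ := fun i => if hi : i < n + 1 then γ ⟨i, hi⟩ 0 else 0 with hg
  have g0 : g 0 = 0 := by
    have := congrFun h.start 0
    simp only [hg, Nat.zero_lt_succ, dif_pos]
    simpa using this
  have gstep : ∀ i, i < n → |g (i + 1) - g i| = 1 := by
    intro i hi
    have := h.step ⟨i, hi⟩
    simp only [Finset.univ_unique, Finset.sum_singleton] at this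
    have e1 : g (i + 1) = γ (Fin.succ ⟨i, hi⟩) 0 := by
      simp only [hg]; rw [dif_pos (by omega)]; rfl
    have e2 : g i = γ (Fin.castSucc ⟨i, hi⟩) 0 := by
      simp only [hg]; rw [dif_pos (by omega)]; rfl
    rw [e1, e2]; simpa using this
  have ginj : ∀ i j, i < n + 1 → j < n + 1 → g i = g j → i = j := by
    intro i j hi hj hij
    simp only [hg] at hij
    rw [dif_pos hi, dif_pos hj] at hij
    have : γ ⟨i, hi⟩ = γ ⟨j, hj⟩ := by
      funext k
      rw [Subsingleton.elim k 0]; exact hij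
    have := h.inj this
    simpa using this
  rcases Nat.eq_zero_or_pos n with rfl | hn
  · left
    funext i k
    have : i = 0 := Fin.ext (by have := i.2; simp only [Fin.val_zero]; omega)
    subst this
    rw [h.start]
    simp [ray]
  · have h01 := gstep 0 hn
    rw [g0, sub_zero] at h01
    have key : ∀ i, i + 1 ≤ n → g (i + 1) = g 1 * (i + 1 : ℕ) ∧ g i = g 1 * (i : ℕ) := by
      intro i
      induction i with
      | zero => intro _; simp [g0]
      | succ i ih =>
        intro hi
        obtain ⟨ih1, ih0⟩ := ih (by omega)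
        refine ⟨?_, ih1⟩
        have hs := gstep (i + 1) (by omega)
        have hne : g (i + 1 + 1) ≠ g i := fun hc => by
          have := ginj _ _ (by omega) (by omega) hc
          omega
        rcases (abs_eq (zero_le_one)).1 h01 with h1 | h1 <;>
        rcases (abs_eq (zero_le_one)).1 hs with h2 | h2 <;>
        · rw [h1] at ih1 ih0 ⊢
          push_cast at *
          first
          | linarith
          | (exfalso; apply hne; linarith)
    have all : ∀ i, i ≤ n → g i = g 1 * (i : ℕ) := by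
      intro i hi
      rcases Nat.eq_zero_or_pos i with rfl | hi0
      · simp [g0]
      · obtain ⟨k, rfl⟩ : ∃ k, i = k + 1 := ⟨i - 1, by omega⟩
        exact (key k hi).1
    have conv : ∀ s : ℤ, g 1 = s → γ = ray s n := by
      intro s hs
      funext i k
      have hi : (i : ℕ) < n + 1 := i.2
      have h2 := all i (by omega)
      rw [hs] at h2
      have h3 : g i = γ i 0 := by simp only [hg]; rw [dif_pos hi]
      rw [Subsingleton.elim k 0, ← h3, h2]
      rfl
    rcases (abs_eq (zero_le_one)).1 h01 with h1 | h1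
    · exact Or.inl (conv 1 h1)
    · exact Or.inr (conv (-1) h1)

/-- the site `m` of `ℤ^1` -/
def site (m : ℤ) : Fin 1 → ℤ := fun _ => m

lemma site_inj : Function.Injective site := fun _ _ h => congrFun h 0

/-- partial sums to the right and to the left -/
noncomputable def psum (s : ℤ) (n : ℕ) (x : (Fin 1 → ℤ) → ℝ) : ℝ :=
  ∑ i ∈ Finset.range n, x (site (s * ((i : ℤ) + 1)))

lemma sum_ray (s : ℤ) (n : ℕ) (x : (Fin 1 → ℤ) → ℝ) :
    ∑ i : Fin n, x (ray s n i.succ) = psum s n x := by
  unfold psum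
  rw [← Fin.sum_univ_eq_sum_range (fun i => x (site (s * ((i : ℤ) + 1)))) n]
  refine Finset.sum_congr rfl fun i _ => ?_
  congr 1

lemma greedy_one (n : ℕ) (x : (Fin 1 → ℤ) → ℝ) :
    greedy 1 n x = max (psum 1 n x) (psum (-1) n x) := by
  unfold greedy
  have : {s | ∃ γ : Fin (n + 1) → (Fin 1 → ℤ), IsPath γ ∧ s = ∑ i : Fin n, x (γ i.succ)}
      = {psum 1 n x, psum (-1) n x} := by
    ext s
    constructor
    · rintro ⟨γ, hγ, rfl⟩
      rcases path_eq_ray γ hγ with h | h
      · left; rw [h]; exact sum_ray 1 n x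
      · right; rw [h]; exact sum_ray (-1) n x
    · rintro (rfl | h)
      · exact ⟨ray 1 n, ray_isPath 1 (by norm_num) n, (sum_ray 1 n x).symm⟩
      · rw [Set.mem_singleton_iff] at h
        subst h
        exact ⟨ray (-1) n, ray_isPath (-1) (by norm_num) n, (sum_ray (-1) n x).symm⟩
  rw [this, csSup_pair]

/-! ### Laws of large numbers along the two rays -/

section Prob

variable (μ : Measure ℝ) [IsProbabilityMeasure μ]

instance : IsProbabilityMeasure (weights 1 μ) := by unfold weights; infer_instance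

lemma map_eval (a : Fin 1 → ℤ) : (weights 1 μ).map (fun x => x a) = μ :=
  Measure.infinitePi_map_eval (fun _ : Fin 1 → ℤ => μ) a

lemma ident (φ : ℝ → ℝ) (hφ : Measurable φ) (a b : Fin 1 → ℤ) :
    IdentDistrib (fun x : (Fin 1 → ℤ) → ℝ => φ (x a)) (fun x => φ (x b))
      (weights 1 μ) (weights 1 μ) := by
  have h : IdentDistrib (fun x : (Fin 1 → ℤ) → ℝ => x a) (fun x => x b)
      (weights 1 μ) (weights 1 μ) :=
    ⟨(measurable_pi_apply a).aemeasurable, (measurable_pi_apply b).aemeasurable, by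
      rw [map_eval, map_eval]⟩
  exact h.comp hφ

lemma indep (φ : ℝ → ℝ) (hφ : Measurable φ) (s : ℤ) (hs : s ≠ 0) :
    Pairwise (Function.onFun (fun f g : ((Fin 1 → ℤ) → ℝ) → ℝ => f ⟂ᵢ[weights 1 μ] g)
      (fun (i : ℕ) (x : (Fin 1 → ℤ) → ℝ) => φ (x (site (s * ((i : ℤ) + 1)))))) := by
  intro i j hij
  have h := iIndepFun_infinitePi (P := fun _ : Fin 1 → ℤ => μ) (X := fun _ => φ) (fun _ => hφ)
  have hne : site (s * ((i : ℤ) + 1)) ≠ site (s * ((j : ℤ) + 1)) := by
    intro hc
    have := mul_left_cancel₀ hs (site_inj hc)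
    exact hij (by exact_mod_cast (add_right_cancel this))
  exact h.indepFun hne

lemma integral_eval (φ : ℝ → ℝ) (hφ : Measurable φ) (a : Fin 1 → ℤ) :
    ∫ x, φ (x a) ∂(weights 1 μ) = ∫ y, φ y ∂μ := by
  conv_rhs => rw [← map_eval μ a]
  rw [integral_map (measurable_pi_apply a).aemeasurable hφ.aestronglyMeasurable]

lemma integrable_eval (φ : ℝ → ℝ) (h : Integrable φ μ) (a : Fin 1 → ℤ) :
    Integrable (fun x : (Fin 1 → ℤ) → ℝ => φ (x a)) (weights 1 μ) := by
  have h1 : Integrable φ ((weights 1 μ).map (fun x => x a)) := by rw [map_eval]; exact h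
  exact h1.comp_measurable (measurable_pi_apply a)

lemma slln (φ : ℝ → ℝ) (hφ : Measurable φ) (h : Integrable φ μ) (s : ℤ) (hs : s ≠ 0) :
    ∀ᵐ x ∂(weights 1 μ), Tendsto
      (fun n : ℕ => (∑ i ∈ Finset.range n, φ (x (site (s * ((i : ℤ) + 1))))) / n) atTop
      (𝓝 (∫ y, φ y ∂μ)) := by
  have := strong_law_ae_real
    (fun (i : ℕ) (x : (Fin 1 → ℤ) → ℝ) => φ (x (site (s * ((i : ℤ) + 1)))))
    (integrable_eval μ φ h _) (indep μ φ hφ s hs) (fun i => ident μ φ hφ _ _)
  rw [integral_eval μ φ hφ] at this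
  exact this

lemma trunc_integrable (h : Integrable (fun y : ℝ => max y 0) μ) (K : ℕ) :
    Integrable (fun y : ℝ => max y (-(K : ℝ))) μ := by
  refine Integrable.mono' (h.add (integrable_const (K : ℝ))) (by fun_prop) ?_
  refine Eventually.of_forall fun y => ?_
  simp only [Pi.add_apply, Real.norm_eq_abs]
  have hK : (0 : ℝ) ≤ K := Nat.cast_nonneg K
  rw [abs_le]
  constructor
  · have := le_max_right y (-(K : ℝ))
    have := le_max_right y 0
    linarith
  · refine max_le ?_ ?_
    · have := le_max_left y 0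
      linarith
    · have := le_max_right y 0
      linarith

lemma trunc_small (h : Integrable (fun y : ℝ => max y 0) μ)
    (hinf : ∫⁻ y, ENNReal.ofReal (-y) ∂μ = ⊤) (B : ℝ) :
    ∃ K : ℕ, ∫ y, max y (-(K : ℝ)) ∂μ < B := by
  by_contra hcon
  push Not at hcon
  set C : ℝ := (∫ y, max y 0 ∂μ) - B with hC
  have hbd : ∀ K : ℕ, ∫⁻ y, ENNReal.ofReal (min (-y) (K : ℝ)) ∂μ ≤ ENNReal.ofReal C := by
    intro K
    have hK : (0 : ℝ) ≤ K := Nat.cast_nonneg K
    have hid : ∀ y : ℝ, max (min (-y) (K : ℝ)) 0 = max y 0 - max y (-(K : ℝ)) := by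
      intro y
      rcases le_total y 0 with h1 | h1
      · rw [max_eq_right h1]
        rcases le_total (-y) (K : ℝ) with h2 | h2
        · rw [min_eq_left h2, max_eq_left (by linarith), max_eq_left (by linarith)]; ring
        · rw [min_eq_right h2, max_eq_left hK, max_eq_right (by linarith)]; ring
      · rw [max_eq_left h1, max_eq_left (by linarith : -(K : ℝ) ≤ y),
          min_eq_left (by linarith), max_eq_right (by linarith)]; ring
    have hint : Integrable (fun y : ℝ => max y 0 - max y (-(K : ℝ))) μ :=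
      h.sub (trunc_integrable μ h K)
    have h1 : ∫⁻ y, ENNReal.ofReal (min (-y) (K : ℝ)) ∂μ
        = ∫⁻ y, ENNReal.ofReal (max y 0 - max y (-(K : ℝ))) ∂μ := by
      refine lintegral_congr fun y => ?_
      rw [← hid y]
      rcases le_total 0 (min (-y) (K : ℝ)) with h3 | h3
      · rw [max_eq_left h3]
      · rw [max_eq_right h3, ENNReal.ofReal_of_nonpos h3, ENNReal.ofReal_zero]
    rw [h1, ← ofReal_integral_eq_lintegral_ofReal hint
      (Eventually.of_forall fun y => by
        simp only [Pi.zero_apply]; rw [← hid y]; exact le_max_right _ _),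
      integral_sub h (trunc_integrable μ h K)]
    refine ENNReal.ofReal_le_ofReal ?_
    have := hcon K
    linarith
  have hmono : Tendsto (fun K : ℕ => ∫⁻ y, ENNReal.ofReal (min (-y) (K : ℝ)) ∂μ) atTop
      (𝓝 (∫⁻ y, ENNReal.ofReal (-y) ∂μ)) := by
    refine lintegral_tendsto_of_tendsto_of_monotone (fun K => by fun_prop)
      (Eventually.of_forall fun y => ?_) (Eventually.of_forall fun y => ?_)
    · intro K L hKL
      refine ENNReal.ofReal_le_ofReal (min_le_min_left _ (by exact_mod_cast hKL))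
    · refine tendsto_const_nhds.congr' ?_
      filter_upwards [eventually_ge_atTop (Nat.ceil (-y))] with K hK
      rw [min_eq_left]
      exact (Nat.le_ceil _).trans (by exact_mod_cast hK)
  have := le_of_tendsto' hmono hbd
  rw [hinf, top_le_iff] at this
  exact ENNReal.ofReal_ne_top this

lemma psum_bot (h : Integrable (fun y : ℝ => max y 0) μ)
    (hinf : ∫⁻ y, ENNReal.ofReal (-y) ∂μ = ⊤) (s : ℤ) (hs : s ≠ 0) :
    ∀ᵐ x ∂(weights 1 μ), Tendsto (fun n : ℕ => psum s n x / n) atTop atBot := by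
  have hall : ∀ᵐ x ∂(weights 1 μ), ∀ K : ℕ, Tendsto
      (fun n : ℕ => (∑ i ∈ Finset.range n, max (x (site (s * ((i : ℤ) + 1)))) (-(K : ℝ))) / n)
      atTop (𝓝 (∫ y, max y (-(K : ℝ)) ∂μ)) := by
    rw [ae_all_iff]
    intro K
    exact slln μ (fun y => max y (-(K : ℝ))) (by fun_prop) (trunc_integrable μ h K) s hs
  filter_upwards [hall] with x hx
  rw [tendsto_atBot]
  intro B
  obtain ⟨K, hK⟩ := trunc_small μ h hinf B
  filter_upwards [(hx K).eventually (gt_mem_nhds hK)] with n hn
  refine le_trans ?_ hn.le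
  unfold psum
  gcongr
  exact le_max_left _ _

lemma plus_integrable (hp : PlusCond 1 μ) : Integrable (fun y : ℝ => max y 0) μ := by
  obtain ⟨α, hα, hfin⟩ := hp
  refine ⟨by fun_prop, ?_⟩
  have hb : ∀ y : ℝ, ‖max y 0‖ₑ ≤ ENNReal.ofReal (Real.exp 1) + ENNReal.ofReal
      ((max y 0) ^ 1 * (max (Real.log (max y 0)) 0) ^ (((1 : ℕ) : ℝ) + α)) := by
    intro y
    have h0 : (0 : ℝ) ≤ max y 0 := le_max_right _ _
    rw [Real.enorm_eq_ofReal h0,
      ← ENNReal.ofReal_add (Real.exp_pos 1).le
        (mul_nonneg (pow_nonneg h0 1) (Real.rpow_nonneg (le_max_right _ _) _))]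
    refine ENNReal.ofReal_le_ofReal ?_
    have h2 : (0 : ℝ) ≤ (max y 0) ^ 1 * (max (Real.log (max y 0)) 0) ^ (((1 : ℕ) : ℝ) + α) :=
      mul_nonneg (pow_nonneg h0 1) (Real.rpow_nonneg (le_max_right _ _) _)
    rcases le_total (max y 0) (Real.exp 1) with h1 | h1
    · linarith
    · have h3 : 1 ≤ Real.log (max y 0) := by
        rw [Real.le_log_iff_exp_le (lt_of_lt_of_le (Real.exp_pos 1) h1)]
        exact h1
      have h4 : 1 ≤ (max (Real.log (max y 0)) 0) ^ (((1 : ℕ) : ℝ) + α) :=
        Real.one_le_rpow (h3.trans (le_max_left _ _)) (by positivity)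
      have h5 := mul_le_mul_of_nonneg_left h4 (pow_nonneg h0 1)
      have := Real.exp_pos 1
      simp only [pow_one, mul_one] at h5 ⊢
      linarith
  refine lt_of_le_of_lt (lintegral_mono hb) ?_
  rw [lintegral_add_left measurable_const, lintegral_const, measure_univ, mul_one]
  exact ENNReal.add_lt_top.2 ⟨ENNReal.ofReal_lt_top, hfin⟩

lemma greedy_bot (hp : PlusCond 1 μ) (hinf : ∫⁻ y, ENNReal.ofReal (-y) ∂μ = ⊤) :
    ∀ᵐ x ∂(weights 1 μ), Tendsto (fun n : ℕ => greedy 1 n x / n) atTop atBot := by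
  have hI := plus_integrable μ hp
  filter_upwards [psum_bot μ hI hinf 1 one_ne_zero, psum_bot μ hI hinf (-1) (by norm_num)]
    with x h1 h2
  rw [tendsto_atBot] at h1 h2 ⊢
  intro B
  filter_upwards [h1 B, h2 B] with n a b
  rw [greedy_one]
  rcases le_total (psum 1 n x) (psum (-1) n x) with h | h
  · rw [max_eq_right h]; exact b
  · rw [max_eq_left h]; exact a

lemma measurable_psum (s : ℤ) (n : ℕ) : Measurable (psum s n) := by
  unfold psum
  exact Finset.measurable_sum _ fun i _ => measurable_pi_apply _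

lemma measurable_greedy (n : ℕ) : Measurable (greedy 1 n) := by
  have : greedy 1 n = fun x => max (psum 1 n x) (psum (-1) n x) := funext fun x => greedy_one n x
  rw [this]
  exact (measurable_psum 1 n).max (measurable_psum (-1) n)

lemma not_limit (hp : PlusCond 1 μ) (hinf : ∫⁻ y, ENNReal.ofReal (-y) ∂μ = ⊤) (M : ℝ) :
    ¬ L1Limit 1 μ M := by
  intro hlim
  have hfatou := lintegral_liminf_le (μ := weights 1 μ) (u := atTop)
    (f := fun (n : ℕ) (x : (Fin 1 → ℤ) → ℝ) => ENNReal.ofReal |greedy 1 n x / n - M|)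
    (fun n => by
      have := measurable_greedy n
      fun_prop)
  rw [hlim.liminf_eq] at hfatou
  have htop : ∫⁻ x, liminf (fun n : ℕ => ENNReal.ofReal |greedy 1 n x / n - M|) atTop
      ∂(weights 1 μ) = ∫⁻ _, ⊤ ∂(weights 1 μ) := by
    refine lintegral_congr_ae ?_
    filter_upwards [greedy_bot μ hp hinf] with x hx
    refine Tendsto.liminf_eq ?_
    refine ENNReal.tendsto_ofReal_atTop.comp ?_
    refine tendsto_abs_atBot_atTop.comp ?_
    exact tendsto_atBot_add_const_right _ (-M) hx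
  rw [htop, lintegral_const, measure_univ, mul_one] at hfatou
  exact absurd hfatou (by simp)

lemma psum_L1 (h : Integrable (fun y : ℝ => y) μ) (s : ℤ) (hs : s ≠ 0) :
    Tendsto (fun n : ℕ => ∫⁻ x, ENNReal.ofReal |psum s n x / n - ∫ y, y ∂μ| ∂(weights 1 μ))
      atTop (𝓝 0) := by
  have h1 := strong_law_Lp (p := 1) (μ := weights 1 μ) le_rfl ENNReal.one_ne_top
    (fun (i : ℕ) (x : (Fin 1 → ℤ) → ℝ) => id (x (site (s * ((i : ℤ) + 1)))))
    (memLp_one_iff_integrable.2 (integrable_eval μ id h _)) (indep μ id measurable_id s hs)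
    (fun i => ident μ id measurable_id _ _)
  have h2 : ∫ x, id (x (site (s * (((0 : ℕ) : ℤ) + 1)))) ∂(weights 1 μ) = ∫ y, y ∂μ :=
    integral_eval μ id measurable_id _
  refine h1.congr fun n => ?_
  rw [eLpNorm_one_eq_lintegral_enorm]
  refine lintegral_congr fun x => ?_
  rw [Real.enorm_eq_ofReal_abs, h2]
  congr 2
  unfold psum
  simp only [id, smul_eq_mul]
  rw [div_eq_inv_mul]

omit [IsProbabilityMeasure μ] in
lemma integrable_of_minus (hI : Integrable (fun y : ℝ => max y 0) μ)
    (hm : ∫⁻ y, ENNReal.ofReal (-y) ∂μ < ⊤) : Integrable (fun y : ℝ => y) μ := by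
  have h2 : Integrable (fun y : ℝ => max (-y) 0) μ := by
    refine ⟨by fun_prop, ?_⟩
    refine lt_of_le_of_lt (lintegral_mono fun y => ?_) hm
    rw [Real.enorm_eq_ofReal (le_max_right _ _)]
    rcases le_total (-y) 0 with h | h
    · rw [max_eq_right h]; simp
    · rw [max_eq_left h]
  refine (hI.sub h2).congr (Eventually.of_forall fun y => ?_)
  simp only [Pi.sub_apply]
  rcases le_total y 0 with h | h
  · rw [max_eq_right h, max_eq_left (by linarith)]; ring
  · rw [max_eq_left h, max_eq_right (by linarith)]; ring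

lemma greedy_L1 (h : Integrable (fun y : ℝ => y) μ) : L1Limit 1 μ (∫ y, y ∂μ) := by
  have h1 := psum_L1 μ h 1 one_ne_zero
  have h2 := psum_L1 μ h (-1) (by norm_num)
  have h3 := h1.add h2
  rw [add_zero] at h3
  refine tendsto_of_tendsto_of_tendsto_of_le_of_le tendsto_const_nhds h3
    (fun _ => bot_le) (fun n => ?_)
  simp only
  rw [← lintegral_add_left (by have := measurable_psum 1 n; fun_prop)]
  refine lintegral_mono fun x => ?_
  simp only
  rw [← ENNReal.ofReal_add (abs_nonneg _) (abs_nonneg _), greedy_one]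
  refine ENNReal.ofReal_le_ofReal ?_
  rcases le_total (psum 1 n x) (psum (-1) n x) with h | h
  · rw [max_eq_right h]
    exact le_add_of_nonneg_left (abs_nonneg _)
  · rw [max_eq_left h]
    exact le_add_of_nonneg_right (abs_nonneg _)

end Prob

/-! ### The example -/

/-- the law of `-1/U` with `U` uniform on `(0,1]` -/
noncomputable def law : Measure ℝ :=
  Measure.map (fun u : ℝ => -u⁻¹) (volume.restrict (Set.Ioc (0 : ℝ) 1))

lemma meas_inv : Measurable (fun u : ℝ => -u⁻¹) := measurable_inv.neg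

instance : IsProbabilityMeasure law := by
  unfold law
  have : IsProbabilityMeasure (volume.restrict (Set.Ioc (0 : ℝ) 1)) := ⟨by simp⟩
  exact Measure.isProbabilityMeasure_map meas_inv.aemeasurable

lemma law_plus (d : ℕ) (hd : 1 ≤ d) : PlusCond d law := by
  refine ⟨1, one_pos, ?_⟩
  have : ∫⁻ x, ENNReal.ofReal ((max x 0) ^ d * (max (Real.log (max x 0)) 0) ^ ((d : ℝ) + 1)) ∂law
      = 0 := by
    unfold law
    rw [lintegral_map (by fun_prop) meas_inv]
    refine setLIntegral_eq_zero measurableSet_Ioc ?_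
    intro u hu
    have h1 : max (-u⁻¹) 0 = 0 := max_eq_right (by have := inv_pos.2 hu.1; linarith)
    simp only [h1, Pi.zero_apply]
    rw [zero_pow (by omega), zero_mul, ENNReal.ofReal_zero]
  rw [this]
  exact ENNReal.zero_lt_top

lemma law_tail (t : ℝ) (ht : 0 < t) : law (Set.Iio (-t)) ≤ ENNReal.ofReal (t⁻¹) := by
  unfold law
  rw [Measure.map_apply meas_inv measurableSet_Iio,
    Measure.restrict_apply (meas_inv measurableSet_Iio)]
  calc volume ((fun u : ℝ => -u⁻¹) ⁻¹' Set.Iio (-t) ∩ Set.Ioc 0 1)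
      ≤ volume (Set.Ioo (0 : ℝ) t⁻¹) := by
        refine measure_mono ?_
        rintro u ⟨h1, h2⟩
        refine ⟨h2.1, ?_⟩
        have h3 : t < u⁻¹ := by
          have : -u⁻¹ < -t := h1
          linarith
        rw [lt_inv_comm₀ h2.1 ht]
        exact h3
    _ = ENNReal.ofReal (t⁻¹) := by rw [Real.volume_Ioo, sub_zero]

lemma law_minus : MinusCond 1 law := by
  unfold MinusCond
  have hsplit : Set.Ioi (0 : ℝ) = Set.Ioc 0 1 ∪ Set.Ioi 1 :=
    (Set.Ioc_union_Ioi_eq_Ioi zero_le_one).symm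
  rw [hsplit]
  refine lt_of_le_of_lt (lintegral_union_le _ _ _) (ENNReal.add_lt_top.2 ⟨?_, ?_⟩)
  · refine lt_of_le_of_lt (setLIntegral_mono measurable_const
      (fun t _ => pow_le_one₀ bot_le prob_le_one)) ?_
    simp
  · refine lt_of_le_of_lt (setLIntegral_mono (g := fun t => ENNReal.ofReal (t ^ (-2 : ℝ)))
      (by fun_prop) (fun t ht => ?_)) ?_
    · have ht0 : (0 : ℝ) < t := lt_trans one_pos ht
      calc (law (Set.Iio (-t))) ^ (2 * 1) ≤ (ENNReal.ofReal (t⁻¹)) ^ (2 * 1) :=
            pow_le_pow_left₀ bot_le (law_tail t ht0) _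
        _ = ENNReal.ofReal (t ^ (-2 : ℝ)) := by
            rw [← ENNReal.ofReal_pow (inv_nonneg.2 ht0.le), Real.rpow_neg ht0.le]
            norm_num
    · have := (integrableOn_Ioi_rpow_of_lt (by norm_num : (-2 : ℝ) < -1) one_pos)
      have h2 := this.2
      refine lt_of_le_of_lt (lintegral_mono fun t => ?_) h2
      rw [Real.enorm_eq_ofReal_abs]
      exact ENNReal.ofReal_le_ofReal (le_abs_self _)

lemma law_inf : ∫⁻ y, ENNReal.ofReal (-y) ∂law = ⊤ := by
  by_contra hne
  have hlt : ∫⁻ y, ENNReal.ofReal (-y) ∂law < ⊤ := lt_top_iff_ne_top.2 hne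
  unfold law at hlt
  rw [lintegral_map (by fun_prop) meas_inv] at hlt
  have hI : IntegrableOn (fun u : ℝ => u⁻¹) (Set.Ioc 0 1) := by
    refine ⟨measurable_inv.aestronglyMeasurable, ?_⟩
    refine lt_of_le_of_lt (setLIntegral_mono' measurableSet_Ioc fun u hu => ?_) hlt
    rw [Real.enorm_eq_ofReal (inv_nonneg.2 hu.1.le), neg_neg]
  have h2 : IntervalIntegrable (fun u : ℝ => u⁻¹) volume 0 1 :=
    (intervalIntegrable_iff_integrableOn_Ioc_of_le zero_le_one).2 hI
  rw [intervalIntegrable_inv_iff] at h2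
  rcases h2 with h | h
  · norm_num at h
  · exact h (by simp)

/-- **Main theorem.** -/
theorem result :
    -- the statement of the question fails
    (¬ ∀ d : ℕ, 1 ≤ d → ∀ μ : Measure ℝ, IsProbabilityMeasure μ → PlusCond d μ → MinusCond d μ →
      ∃ M : ℝ, L1Limit d μ M) ∧
    -- dimension one: exact criterion
    (∀ μ : Measure ℝ, IsProbabilityMeasure μ → PlusCond 1 μ →
      ((∃ M : ℝ, L1Limit 1 μ M) ↔ ∫⁻ y, ENNReal.ofReal (-y) ∂μ < ⊤) ∧
      (∫⁻ y, ENNReal.ofReal (-y) ∂μ = ⊤ →
        ∀ᵐ x ∂(weights 1 μ), Tendsto (fun n : ℕ => greedy 1 n x / n) atTop atBot)) ∧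
    -- and both cases occur under (A+) and (A-)
    (∃ μ : Measure ℝ, IsProbabilityMeasure μ ∧ PlusCond 1 μ ∧ MinusCond 1 μ ∧
      ∫⁻ y, ENNReal.ofReal (-y) ∂μ = ⊤) := by
  refine ⟨?_, ?_, ?_⟩
  · intro h
    obtain ⟨M, hM⟩ := h 1 le_rfl law inferInstance (law_plus 1 le_rfl) law_minus
    exact not_limit law (law_plus 1 le_rfl) law_inf M hM
  · intro μ _ hp
    refine ⟨⟨?_, ?_⟩, fun hinf => greedy_bot μ hp hinf⟩
    · rintro ⟨M, hM⟩
      rw [lt_top_iff_ne_top]
      intro hinf
      exact not_limit μ hp hinf M hM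
    · intro hm
      exact ⟨_, greedy_L1 μ (integrable_of_minus μ (plus_integrable μ hp) hm)⟩
  · exact ⟨law, inferInstance, law_plus 1 le_rfl, law_minus, law_inf⟩

end Pool.Agent.Results.MP_18bc13_pr.DimensionOne
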